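import Pool.Agent.W761.CC.Stms
import Pool.Agent.W975.CB.Ms

/-! CC-CRD (helper761): crowded blocks. -/

set_option autoImplicit false

open MeasureTheory
open scoped ENNReal

namespace Pool.Agent.W688.CC

open Pool.Agent.W761.CB Pool.Agent.W761.CC

section gen
variable {X : Type}

open Classical in
lemma cnt_eq (B : Set X) (S : Multiset X) :
    cnt B S = (S.map fun x => if x ∈ B then 1 else 0).sum := by
  unfold cnt
  induction S using Multiset.induction_on with
  | empty => simp
  | cons x S ih =>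
    rw [Multiset.filter_cons, Multiset.card_add, ih, Multiset.map_cons, Multiset.sum_cons]
    split_ifs <;> simp

lemma meas_cnt [MeasurableSpace X] (B : Set X) (hB : MeasurableSet B) :
    Measurable fun γ : Cf X => cnt B (ms γ) := by
  classical
  simp only [cnt_eq]
  have h := Pool.Agent.W975.CB.sum_meas (X := X) (Z := ℕ) Unit (fun _ x => if x ∈ B then 1 else 0)
    (Measurable.ite (measurable_snd hB) measurable_const measurable_const)
  exact h.comp (measurable_prodMk_left (x := ()))

/-- counting in a covered set -/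
lemma cnt_cover {ι : Type} (s : Finset ι) (B : Set X) (C : ι → Set X)
    (h : ∀ x ∈ B, ∃ i ∈ s, x ∈ C i) (S : Multiset X) : cnt B S ≤ ∑ i ∈ s, cnt (C i) S := by
  classical
  simp only [cnt_eq]
  induction S using Multiset.induction_on with
  | empty => simp
  | cons x S ih =>
    simp only [Multiset.map_cons, Multiset.sum_cons, Finset.sum_add_distrib]
    refine Nat.add_le_add ?_ ih
    split_ifs with hx
    · obtain ⟨i, hi, hxi⟩ := h x hx
      have h1 := Finset.single_le_sum (f := fun i => if x ∈ C i then 1 else 0)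
        (fun i _ => Nat.zero_le _) hi
      rw [if_pos hxi] at h1
      exact h1
    · exact Nat.zero_le _

end gen

section torus
variable {n q M : ℕ}

/-- the big block containing a small block -/
def gp (k : Fin n → Fin (q * M)) : Fin n → Fin q := fun c => ⟨(k c : ℕ) / M, by
  have h := (k c).isLt
  exact Nat.div_lt_of_lt_mul (lt_of_lt_of_eq h (mul_comm q M))⟩

lemma card_gp (hM : 1 ≤ M) (i : Fin n → Fin q) :
    (Finset.univ.filter fun k : Fin n → Fin (q * M) => gp k = i).card ≤ M ^ n := by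
  classical
  have hsub : (Finset.univ.filter fun k : Fin n → Fin (q * M) => gp k = i) ⊆
      Fintype.piFinset fun c => Finset.univ.filter fun a : Fin (q * M) =>
        (a : ℕ) / M = (i c : ℕ) := by
    intro k hk
    rw [Fintype.mem_piFinset]
    intro c
    rw [Finset.mem_filter]
    refine ⟨Finset.mem_univ _, ?_⟩
    rw [← (Finset.mem_filter.1 hk).2]
    rfl
  refine (Finset.card_le_card hsub).trans ?_
  rw [Fintype.card_piFinset]
  calc _ ≤ ∏ _c : Fin n, M := by
        refine Finset.prod_le_prod' fun c _ => ?_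
        have h1 : (Finset.univ.filter fun a : Fin (q * M) => (a : ℕ) / M = (i c : ℕ)).card ≤
            (Finset.range M).card := by
          refine Finset.card_le_card_of_injOn (fun a => (a : ℕ) % M) ?_ ?_
          · intro a _
            rw [Finset.mem_coe, Finset.mem_range]
            exact Nat.mod_lt _ hM
          · intro a ha a' ha' h
            rw [Finset.mem_coe, Finset.mem_filter] at ha ha'
            apply Fin.ext
            simp only at h
            rw [← Nat.div_add_mod (a : ℕ) M, ← Nat.div_add_mod (a' : ℕ) M, ha.2, ha'.2, h]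
        rwa [Finset.card_range] at h1
    _ = M ^ n := by rw [Finset.prod_const, Finset.card_univ, Fintype.card_fin]

/-- a point of a big block lies in one of its small blocks -/
lemma cover {L b₁ : ℝ} (hb : 0 < b₁) (hM : 1 ≤ M) (i : Fin n → Fin q) (x : Tor n L)
    (hx : x ∈ blk n L (M * b₁) (fun c => (i c : ℕ))) :
    ∃ k ∈ (Finset.univ.filter fun k : Fin n → Fin (q * M) => gp k = i),
      x ∈ blk n L b₁ (fun c => (k c : ℕ)) := by
  choose t ht1 ht2 ht3 using hx
  have hM' : (0 : ℝ) < M := by exact_mod_cast hM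
  have hdiv : ∀ c, 0 ≤ t c / b₁ := fun c => by
    refine div_nonneg (le_trans ?_ (ht1 c)) hb.le
    positivity
  have hlo : ∀ c, (i c : ℕ) * M ≤ ⌊t c / b₁⌋₊ := fun c => by
    rw [Nat.le_floor_iff (hdiv c), le_div_iff₀ hb]
    push_cast
    rw [mul_assoc]
    exact ht1 c
  have hhi : ∀ c, ⌊t c / b₁⌋₊ < ((i c : ℕ) + 1) * M := fun c => by
    rw [Nat.floor_lt (hdiv c), div_lt_iff₀ hb]
    push_cast
    rw [mul_assoc]
    exact ht2 c
  have hlt : ∀ c, ⌊t c / b₁⌋₊ < q * M := fun c =>
    lt_of_lt_of_le (hhi c) (Nat.mul_le_mul_right _ (i c).isLt)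
  refine ⟨fun c => ⟨⌊t c / b₁⌋₊, hlt c⟩, ?_, ?_⟩
  · rw [Finset.mem_filter]
    refine ⟨Finset.mem_univ _, ?_⟩
    funext c
    apply Fin.ext
    show ⌊t c / b₁⌋₊ / M = (i c : ℕ)
    exact Nat.div_eq_of_lt_le (hlo c) (hhi c)
  · intro c
    refine ⟨t c, ?_, ?_, ht3 c⟩
    · have h1 := Nat.floor_le (hdiv c)
      rw [le_div_iff₀ hb] at h1
      exact h1
    · have h1 := Nat.lt_floor_add_one (t c / b₁)
      rw [div_lt_iff₀ hb] at h1
      exact h1

end torus

theorem crd : S_BLK → S_CRD := by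
  intro hBLK n L b₁ hLf q M D hq hM hL F hF hD
  classical
  have hL0 : 0 < L := hLf.out
  have hqM : 1 ≤ q * M := Nat.mul_pos hq hM
  have hqM' : (0 : ℝ) < ((q * M : ℕ) : ℝ) := by exact_mod_cast hqM
  have hb : 0 < b₁ := by
    by_contra hc
    push Not at hc
    have := mul_nonpos_of_nonneg_of_nonpos hqM'.le hc
    rw [hL] at hL0
    linarith
  have hmeas := (hBLK n L b₁ (q * M) hqM hL).1
  set B : (Fin n → Fin (q * M)) → Set (Tor n L) := fun k => blk n L b₁ (fun c => (k c : ℕ)) with hB
  set C : (Fin n → Fin q) → Set (Tor n L) := fun i => blk n L (M * b₁) (fun c => (i c : ℕ)) with hC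
  have key : ∀ (i : Fin n → Fin q) (S : Multiset (Tor n L)),
      (if cnt (C i) S ≤ 2 * M ^ n then (0 : ℝ≥0∞) else (cnt (C i) S : ℝ≥0∞)) ≤
        2 * ∑ k ∈ Finset.univ.filter (fun k : Fin n → Fin (q * M) => gp k = i),
          ((cnt (B k) S - 1 : ℕ) : ℝ≥0∞) := by
    intro i S
    split_ifs with hc
    · exact zero_le
    · push Not at hc
      have h1 : cnt (C i) S ≤ ∑ k ∈ Finset.univ.filter
          (fun k : Fin n → Fin (q * M) => gp k = i), cnt (B k) S :=
        cnt_cover _ _ _ (fun x hx => cover hb hM i x hx) S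
      have h2 : ∑ k ∈ Finset.univ.filter (fun k : Fin n → Fin (q * M) => gp k = i), cnt (B k) S ≤
          ∑ k ∈ Finset.univ.filter (fun k : Fin n → Fin (q * M) => gp k = i),
            ((cnt (B k) S - 1) + 1) :=
        Finset.sum_le_sum fun k _ => by omega
      rw [Finset.sum_add_distrib, Finset.sum_const, smul_eq_mul, mul_one] at h2
      have h3 := card_gp (n := n) (q := q) hM i
      have h4 : cnt (C i) S ≤ 2 * ∑ k ∈ Finset.univ.filter
          (fun k : Fin n → Fin (q * M) => gp k = i), (cnt (B k) S - 1) := by omega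
      calc ((cnt (C i) S : ℕ) : ℝ≥0∞) ≤ ((2 * ∑ k ∈ Finset.univ.filter
          (fun k : Fin n → Fin (q * M) => gp k = i), (cnt (B k) S - 1) : ℕ) : ℝ≥0∞) := by
            exact_mod_cast h4
        _ = _ := by push_cast; rfl
  have hFm : Measurable fun γ : Cf (Tor n L) => ‖F (ms γ)‖ₑ ^ 2 := hF.meas.enorm.pow_const 2
  have hm : ∀ k, Measurable fun γ : Cf (Tor n L) =>
      ((cnt (B k) (ms γ) - 1 : ℕ) : ℝ≥0∞) * ‖F (ms γ)‖ₑ ^ 2 := by
    intro k
    refine Measurable.mul ?_ hFm
    exact (measurable_from_nat (f := fun j : ℕ => ((j - 1 : ℕ) : ℝ≥0∞))).comp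
      (meas_cnt (B k) (hmeas _))
  calc ∑ i : Fin n → Fin q, ∫⁻ γ, (if cnt (C i) (ms γ) ≤ 2 * M ^ n then 0 else
        (cnt (C i) (ms γ) : ℝ≥0∞)) * ‖F (ms γ)‖ₑ ^ 2 ∂(lam (volume : Measure (Tor n L)))
      ≤ ∑ i : Fin n → Fin q, ∫⁻ γ, 2 * ∑ k ∈ Finset.univ.filter
          (fun k : Fin n → Fin (q * M) => gp k = i),
          ((cnt (B k) (ms γ) - 1 : ℕ) : ℝ≥0∞) * ‖F (ms γ)‖ₑ ^ 2
            ∂(lam (volume : Measure (Tor n L))) := by
        refine Finset.sum_le_sum fun i _ => lintegral_mono fun γ => ?_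
        rw [← Finset.sum_mul, ← mul_assoc]
        exact mul_le_mul_left (key i (ms γ)) _
    _ = ∑ i : Fin n → Fin q, 2 * ∑ k ∈ Finset.univ.filter
          (fun k : Fin n → Fin (q * M) => gp k = i), ∫⁻ γ,
          ((cnt (B k) (ms γ) - 1 : ℕ) : ℝ≥0∞) * ‖F (ms γ)‖ₑ ^ 2
            ∂(lam (volume : Measure (Tor n L))) := by
        refine Finset.sum_congr rfl fun i _ => ?_
        rw [lintegral_const_mul _ (Finset.measurable_sum _ fun k _ => hm k),
          lintegral_finsetSum _ fun k _ => hm k]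
    _ = 2 * ∑ k : Fin n → Fin (q * M), ∫⁻ γ,
          ((cnt (B k) (ms γ) - 1 : ℕ) : ℝ≥0∞) * ‖F (ms γ)‖ₑ ^ 2
            ∂(lam (volume : Measure (Tor n L))) := by
        rw [← Finset.mul_sum, Finset.sum_fiberwise]
    _ ≤ 2 * D := mul_le_mul_right hD _

end Pool.Agent.W688.CC
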